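import Pool.Agent.W883.EC.M5

/-!
Project EC (helper883): M5, conclusion.
-/

set_option autoImplicit false

namespace Pool.Agent.W883.EC

open Finset
open Pool.Agent.H376R2.MR
open Pool.Agent.W78.GA
open Pool.Agent.W78.EC

/-- the low frequencies -/
lemma low {h X : ℝ} (hh : 1 ≤ h) (hX : 8 * h ≤ X) {η₁ η₂ : ℝ} (A : ℤ → ℝ)
    (hA : ∀ k, 0 ≤ A k)
    (h1 : ∑ k ∈ (FK ⌊X / h⌋₊).erase 0, A k ≤ η₁) (h2 : A 0 ≤ η₂) :
    ∑ k ∈ FK (2 * ⌊X / (4 * h)⌋₊ + 1), A k ≤ η₁ + η₂ := by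
  have hh0 : 0 < h := by linarith
  have hX0 : 0 < X := by linarith
  have h3 : 2 * ⌊X / (4 * h)⌋₊ + 1 ≤ ⌊X / h⌋₊ := by
    apply Nat.le_floor
    push_cast
    have h4 : (⌊X / (4 * h)⌋₊ : ℝ) ≤ X / (4 * h) := Nat.floor_le (by positivity)
    have h5 : X / (4 * h) = X / h / 4 := by field_simp
    have h6 : 8 ≤ X / h := by rw [le_div_iff₀ hh0]; exact hX
    have h9 := h4.trans (le_of_eq h5)
    linarith
  have h7 : FK (2 * ⌊X / (4 * h)⌋₊ + 1) ⊆ FK ⌊X / h⌋₊ := by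
    unfold FK
    apply Finset.Ioo_subset_Ioo
    · have : ((2 * ⌊X / (4 * h)⌋₊ + 1 : ℕ) : ℤ) ≤ (⌊X / h⌋₊ : ℤ) := by exact_mod_cast h3
      linarith
    · exact_mod_cast h3
  have h8 : (0 : ℤ) ∈ FK ⌊X / h⌋₊ := by
    unfold FK
    rw [mem_Ioo]
    omega
  calc ∑ k ∈ FK (2 * ⌊X / (4 * h)⌋₊ + 1), A k ≤ ∑ k ∈ FK ⌊X / h⌋₊, A k :=
        Finset.sum_le_sum_of_subset_of_nonneg h7 (fun k _ _ => hA k)
    _ = ∑ k ∈ (FK ⌊X / h⌋₊).erase 0, A k + A 0 := (Finset.sum_erase_add _ _ h8).symm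
    _ ≤ η₁ + η₂ := add_le_add h1 h2

lemma sqrt_small {C ε X : ℝ} (hε : 0 < ε) (hX0 : 0 < X) (hX : (C / ε) ^ 2 ≤ X) :
    C * Real.sqrt X ≤ ε * X := by
  have h1 : C / ε ≤ Real.sqrt X := Real.le_sqrt_of_sq_le hX
  have h2 : Real.sqrt X * Real.sqrt X = X := Real.mul_self_sqrt hX0.le
  have h3 : C ≤ ε * Real.sqrt X := by
    rw [div_le_iff₀ hε] at h1
    linarith
  calc C * Real.sqrt X ≤ ε * Real.sqrt X * Real.sqrt X :=
        mul_le_mul_of_nonneg_right h3 (Real.sqrt_nonneg _)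
    _ = ε * X := by rw [mul_assoc, h2]

/-- the statement for `1/2 ≤ σ` -/
lemma base (h1 : S_MRW) (h2 : S_MW0) (M : ℕ) (S : Gi → Prop) (hM : 1 ≤ M) (h4 : 4 ∣ M)
    (hS : Cls M S) (σ : ℝ) (hσ : 1 / 2 ≤ σ) (hσ1 : σ < 1) (ε : ℝ) (hε : 0 < ε) :
    ∃ H : ℝ, 1 ≤ H ∧ ∃ X₀ : ℝ, ∀ X : ℝ, X₀ ≤ X → ∀ n : ℕ, 1 ≤ n → n * H ≤ X →
      TS S σ X n ≤ ε * X := by
  classical
  obtain ⟨κ, C, hκ, hC, hcard, hshell⟩ := pball_count
  obtain ⟨C', hC', hbad⟩ := bad_count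
  have hpi := Real.pi_gt_three
  set τ : ℝ := min ((1 - σ) / 2) (ε / (16 * κ)) with hτdef
  have hτ : 0 < τ := lt_min (by linarith) (by positivity)
  have hτ1 : τ ≤ (1 - σ) / 2 := min_le_left _ _
  have hτ2 : τ ≤ ε / (16 * κ) := min_le_right _ _
  have hτ3 : κ * τ ≤ ε / 16 := by
    calc κ * τ ≤ κ * (ε / (16 * κ)) := mul_le_mul_of_nonneg_left hτ2 hκ.le
      _ = ε / 16 := by field_simp
  have hrw := wq_rw hσ hτ
  obtain ⟨h, hh, Y₀, hY⟩ := h1 M S hM h4 hS _ _ hrw (ε ^ 2 / 32) (by positivity)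
  obtain ⟨Y₁, hY'⟩ := h2 M S hM hS _ _ hrw (ε / 8) (by positivity)
  set c₁ : ℝ := 23552 * (κ + C) * h ^ 2 / ε with hc₁
  have hc₁0 : 0 ≤ c₁ := by positivity
  set H₁ : ℝ := 1 + c₁ with hH₁
  have hH₁1 : 1 ≤ H₁ := by linarith
  set H : ℝ := 1 + 32 * C' * (H₁ + 1) / ε with hHdef
  have hH0 : 0 ≤ 32 * C' * (H₁ + 1) / ε := by positivity
  have hH1 : 1 ≤ H := by linarith
  refine ⟨H, hH1, max (max Y₀ Y₁) (max (8 * h) (max H₁ (max 2 ((4 * C / (ε / 8)) ^ 2)))), ?_⟩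
  intro X hX n hn hnH
  have hX1 : Y₀ ≤ X := le_trans (le_trans (le_max_left _ _) (le_max_left _ _)) hX
  have hX2 : Y₁ ≤ X := le_trans (le_trans (le_max_right _ _) (le_max_left _ _)) hX
  have hX' := le_trans (le_max_right _ _) hX
  have hX3 : 8 * h ≤ X := le_trans (le_max_left _ _) hX'
  have hX'' := le_trans (le_max_right _ _) hX'
  have hX4 : H₁ ≤ X := le_trans (le_max_left _ _) hX''
  have hX''' := le_trans (le_max_right _ _) hX''
  have hX5 : 2 ≤ X := le_trans (le_max_left _ _) hX'''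
  have hX6 : (4 * C / (ε / 8)) ^ 2 ≤ X := le_trans (le_max_right _ _) hX'''
  have hX0 : 0 < X := by linarith
  have hh0 : 0 < h := by linarith
  -- the low frequencies
  set K : ℕ := ⌊X / (4 * h)⌋₊ with hK
  have hq : 2 ≤ X / (4 * h) := by
    rw [le_div_iff₀ (by positivity)]
    linarith
  have hK1 : 1 ≤ K := Nat.le_floor (by push_cast; linarith)
  have hKge : X / (8 * h) ≤ K := by
    have e1 : X / (4 * h) < K + 1 := Nat.lt_floor_add_one _
    have e2 : X / (8 * h) = X / (4 * h) / 2 := by field_simp; norm_num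
    rw [e2]
    linarith
  set δ : ℝ := H₁ / X with hδ
  have hδ0 : 0 < δ := by positivity
  have hδ1 : δ ≤ 1 := (div_le_one hX0).2 hX4
  have hXδ : X * δ = H₁ := by rw [hδ]; field_simp
  have hsm := smooth (S := S) (σ := σ) hτ hX0 n
  have hang := ang_main (pball 0 1 X) (fun z => ang z) (av' S σ τ X)
    (fun z _ => ⟨Complex.neg_pi_lt_arg _, Complex.arg_le_pi _⟩) (fun z _ => av'_le S σ τ X z)
    K n hK1 hn δ hδ0
  -- E1
  have hE1 : ((((pball 0 1 ((σ + τ) * X)).filter (fun z => σ * X < (nm z : ℝ))).card : ℝ) +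
      ((pball 0 1 X).filter (fun z => (1 - τ) * X < (nm z : ℝ))).card) ≤ ε / 4 * X := by
    have a1 : 1 / 2 * X ≤ σ * X := mul_le_mul_of_nonneg_right hσ hX0.le
    have a2 : 0 < τ * X := mul_pos hτ hX0
    have a3 : (σ + τ) * X ≤ 1 * X := mul_le_mul_of_nonneg_right (by linarith) hX0.le
    have a4 : (1 / 2) * X ≤ (1 - τ) * X := mul_le_mul_of_nonneg_right (by linarith) hX0.le
    have a5 : (σ + τ) * X = σ * X + τ * X := by ring
    have a6 : (1 - τ) * X = X - τ * X := by ring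
    have e1 := hshell (σ * X) ((σ + τ) * X) (by linarith) (by linarith)
    have e2 := hshell ((1 - τ) * X) X (by linarith) (by linarith)
    have e3 : Real.sqrt ((σ + τ) * X) ≤ Real.sqrt X := Real.sqrt_le_sqrt (by linarith)
    have e4 : 2 * C * Real.sqrt ((σ + τ) * X) ≤ 2 * C * Real.sqrt X :=
      mul_le_mul_of_nonneg_left e3 (by positivity)
    have e5 := sqrt_small (C := 4 * C) (ε := ε / 8) (by positivity) hX0 hX6
    have e6 : κ * τ * X ≤ ε / 16 * X := mul_le_mul_of_nonneg_right hτ3 hX0.le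
    have e7 : κ * ((σ + τ) * X - σ * X) = κ * τ * X := by ring
    have e8 : κ * (X - (1 - τ) * X) = κ * τ * X := by ring
    rw [e7] at e1
    rw [e8] at e2
    linarith
  -- E2
  have hE2 : Real.sqrt (∑ k ∈ FK (2 * K + 1), ‖∑ z ∈ pball 0 1 X,
      (av' S σ τ X z : ℂ) * ex (k * ang z)‖ ^ 2) ≤ ε / 4 * X := by
    have e1 : ∑ k ∈ FK (2 * K + 1), ‖∑ z ∈ pball 0 1 X,
        (av' S σ τ X z : ℂ) * ex (k * ang z)‖ ^ 2 =
        X ^ 2 * ∑ k ∈ FK (2 * K + 1), ‖GS (wq σ τ) S X k‖ ^ 2 := by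
      rw [Finset.mul_sum]
      refine Finset.sum_congr rfl fun k _ => ?_
      rw [GS_eq S hτ hX0, norm_mul, mul_pow, Complex.norm_real, Real.norm_eq_abs, sq_abs]
    have e2 := low hh hX3 (fun k => ‖GS (wq σ τ) S X k‖ ^ 2) (fun k => by positivity)
      (hY X hX1) (η₂ := ε ^ 2 / 64) (by
        have e3 := hY' X hX2
        have e4 : ‖GS (wq σ τ) S X 0‖ ^ 2 ≤ (ε / 8) ^ 2 := pow_le_pow_left₀ (norm_nonneg _) e3 2
        calc ‖GS (wq σ τ) S X 0‖ ^ 2 ≤ (ε / 8) ^ 2 := e4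
          _ = ε ^ 2 / 64 := by ring)
    rw [e1]
    apply Real.sqrt_le_iff.2
    refine ⟨by positivity, ?_⟩
    calc X ^ 2 * ∑ k ∈ FK (2 * K + 1), ‖GS (wq σ τ) S X k‖ ^ 2
        ≤ X ^ 2 * (ε ^ 2 / 32 + ε ^ 2 / 64) := mul_le_mul_of_nonneg_left e2 (by positivity)
      _ ≤ (ε / 4 * X) ^ 2 := by
        have e5 : (ε / 4 * X) ^ 2 - X ^ 2 * (ε ^ 2 / 32 + ε ^ 2 / 64) = (ε * X) ^ 2 / 64 := by ring
        have e6 : 0 ≤ (ε * X) ^ 2 / 64 := by positivity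
        linarith
  -- E3
  have hE3 : 2 * (((pball 0 1 X).filter (fun z => Bd n δ (ang z))).card : ℝ) ≤ ε / 8 * X := by
    have e1 := hbad X δ n (by linarith) hδ0.le (by linarith)
    rw [hXδ] at e1
    have hn1 : (1 : ℝ) ≤ n := by exact_mod_cast hn
    have e2 : ((n : ℝ) + 1) * (C' * (H₁ + 1)) ≤ (2 * n) * (C' * (H₁ + 1)) :=
      mul_le_mul_of_nonneg_right (by linarith) (by positivity)
    have e3 : 32 * C' * (H₁ + 1) / ε ≤ H := by linarith
    have e4 : 32 * C' * (H₁ + 1) ≤ ε * H := by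
      rw [div_le_iff₀ hε] at e3
      linarith
    have e5 : (n : ℝ) * (32 * C' * (H₁ + 1)) ≤ n * (ε * H) :=
      mul_le_mul_of_nonneg_left e4 (by positivity)
    have e6 : ε * (n * H) ≤ ε * X := mul_le_mul_of_nonneg_left hnH hε.le
    have e7 : (n : ℝ) * (ε * H) = ε * (n * H) := by ring
    have e8 : (2 * (n : ℝ)) * (C' * (H₁ + 1)) = (n * (32 * C' * (H₁ + 1))) / 16 := by ring
    linarith
  -- E4
  have hE4 : 2 * ((pball 0 1 X).card : ℝ) * (23 / (K * δ) ^ 2) ≤ ε / 8 * X := by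
    have e1 := hcard X (by linarith)
    have e2 : H₁ / (8 * h) ≤ K * δ := by
      calc H₁ / (8 * h) = X / (8 * h) * δ := by rw [hδ]; field_simp
        _ ≤ K * δ := mul_le_mul_of_nonneg_right hKge hδ0.le
    have e3 : (H₁ / (8 * h)) ^ 2 ≤ (K * δ) ^ 2 := pow_le_pow_left₀ (by positivity) e2 2
    have e4 : c₁ ≤ H₁ ^ 2 := by
      have e10 : H₁ * 1 ≤ H₁ * H₁ := mul_le_mul_of_nonneg_left hH₁1 (by linarith)
      rw [sq]
      linarith
    have e5 : c₁ / (64 * h ^ 2) ≤ (K * δ) ^ 2 := by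
      refine le_trans ?_ e3
      rw [div_pow]
      have : (8 * h) ^ 2 = 64 * h ^ 2 := by ring
      rw [this]
      exact div_le_div_of_nonneg_right e4 (by positivity)
    have e6 : c₁ / (64 * h ^ 2) = 368 * (κ + C) / ε := by
      rw [hc₁]
      field_simp
      norm_num
    rw [e6] at e5
    have e7 : 0 < 368 * (κ + C) / ε := by positivity
    have e8 : 23 / (K * δ) ^ 2 ≤ 23 / (368 * (κ + C) / ε) :=
      div_le_div_of_nonneg_left (by norm_num) e7 e5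
    have e9 : 23 / (368 * (κ + C) / ε) = ε / (16 * (κ + C)) := by
      field_simp
      norm_num
    rw [e9] at e8
    calc 2 * ((pball 0 1 X).card : ℝ) * (23 / (K * δ) ^ 2)
        ≤ 2 * ((κ + C) * X) * (ε / (16 * (κ + C))) := by
          refine mul_le_mul (by linarith) e8 (by positivity) (by positivity)
      _ = ε / 8 * X := by
          field_simp
          norm_num
  have hfin : ∑ j ∈ range (n + 1), |∑ z ∈ (pball 0 1 X).filter (fun z => aix n z = (j : ℤ)),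
      av' S σ τ X z| ≤ ε / 4 * X + ε / 8 * X + ε / 8 * X := by
    refine le_trans ?_ (add_le_add (add_le_add hE2 hE3) hE4)
    exact hang
  have hεX : 0 ≤ ε * X := by positivity
  linarith

lemma TS_split (S : Gi → Prop) {σ X : ℝ} (hσ : σ ≤ 1 / 2) (hX : 0 < X) (n : ℕ) :
    TS S σ X n ≤ TS S (2 * σ) (X / 2) n + TS S (1 / 2) X n := by
  classical
  unfold TS
  rw [← Finset.sum_add_distrib]
  refine Finset.sum_le_sum fun j _ => ?_
  refine le_trans (le_of_eq ?_) (abs_add_le _ _)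
  congr 1
  have h1 : ∑ z ∈ (pball 0 1 (X / 2)).filter
      (fun z => 2 * σ * (X / 2) < (nm z : ℝ) ∧ S z ∧ aix n z = (j : ℤ)), (gl z : ℝ) =
      ∑ z ∈ (pball 0 1 X).filter (fun z => ((nm z : ℝ) ≤ X / 2) ∧
        (σ * X < (nm z : ℝ) ∧ S z ∧ aix n z = (j : ℤ))), (gl z : ℝ) := by
    refine Finset.sum_congr ?_ fun _ _ => rfl
    ext z
    rw [mem_filter, mem_filter, mem_pball hD01, mem_pball hD01]
    have e : 2 * σ * (X / 2) = σ * X := by ring
    rw [e]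
    constructor
    · rintro ⟨⟨a, b⟩, c⟩
      exact ⟨⟨a, by linarith⟩, b, c⟩
    · rintro ⟨⟨a, b⟩, c, d⟩
      exact ⟨⟨a, c⟩, d⟩
  rw [h1, Finset.sum_filter, Finset.sum_filter, Finset.sum_filter, ← Finset.sum_add_distrib]
  refine Finset.sum_congr rfl fun z _ => ?_
  by_cases ha : S z ∧ aix n z = (j : ℤ)
  · by_cases hb : (nm z : ℝ) ≤ X / 2
    · have hc : ¬ (1 / 2 * X < (nm z : ℝ)) := by linarith
      have hc' : ¬ (1 / 2 * X < (nm z : ℝ) ∧ S z ∧ aix n z = (j : ℤ)) := fun h => hc h.1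
      rw [if_neg hc', add_zero]
      by_cases hd : σ * X < (nm z : ℝ)
      · rw [if_pos ⟨hd, ha⟩, if_pos ⟨hb, hd, ha⟩]
      · rw [if_neg (fun h => hd h.1), if_neg (fun h => hd h.2.1)]
    · have hc : 1 / 2 * X < (nm z : ℝ) := by linarith
      have hd : σ * X < (nm z : ℝ) := by
        have hd' : σ * X ≤ 1 / 2 * X := mul_le_mul_of_nonneg_right hσ hX.le
        linarith
      rw [if_pos ⟨hd, ha⟩, if_neg (fun h => hb h.1), if_pos ⟨hc, ha⟩, zero_add]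
  · rw [if_neg (fun h => ha h.2), if_neg (fun h => ha h.2.2), if_neg (fun h => ha h.2), add_zero]

lemma steps (h1 : S_MRW) (h2 : S_MW0) (M : ℕ) (S : Gi → Prop) (hM : 1 ≤ M) (h4 : 4 ∣ M)
    (hS : Cls M S) (k : ℕ) : ∀ σ : ℝ, 1 / 2 ^ (k + 1) ≤ σ → σ < 1 → ∀ ε : ℝ, 0 < ε →
    ∃ H : ℝ, 1 ≤ H ∧ ∃ X₀ : ℝ, ∀ X : ℝ, X₀ ≤ X → ∀ n : ℕ, 1 ≤ n → n * H ≤ X →
      TS S σ X n ≤ ε * X := by
  induction k with
  | zero =>
    intro σ hσ hσ1 ε hε
    rw [zero_add, pow_one] at hσ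
    exact base h1 h2 M S hM h4 hS σ hσ hσ1 ε hε
  | succ k ih =>
    intro σ hσ hσ1 ε hε
    by_cases hc : 1 / 2 ≤ σ
    · exact base h1 h2 M S hM h4 hS σ hc hσ1 ε hε
    · push Not at hc
      have hσ2 : 1 / 2 ^ (k + 1) ≤ 2 * σ := by
        have e : (1 : ℝ) / 2 ^ (k + 1) = 2 * (1 / 2 ^ (k + 1 + 1)) := by
          rw [pow_succ (2 : ℝ) (k + 1)]
          field_simp
        rw [e]
        linarith
      obtain ⟨H, hH, X₀, hX₀⟩ := ih (2 * σ) hσ2 (by linarith) (ε / 2) (by positivity)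
      obtain ⟨H', hH', X₀', hX₀'⟩ := base h1 h2 M S hM h4 hS (1 / 2) le_rfl (by norm_num)
        (ε / 2) (by positivity)
      refine ⟨max (2 * H) H', le_max_of_le_right hH', max 1 (max (2 * X₀) X₀'), ?_⟩
      intro X hX n hn hnX
      have hX1 : 1 ≤ X := le_trans (le_max_left _ _) hX
      have hX' := le_trans (le_max_right _ _) hX
      have hX2 : 2 * X₀ ≤ X := le_trans (le_max_left _ _) hX'
      have hX3 : X₀' ≤ X := le_trans (le_max_right _ _) hX'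
      have hn0 : (0 : ℝ) ≤ n := Nat.cast_nonneg n
      have e1 : (n : ℝ) * (2 * H) ≤ n * max (2 * H) H' :=
        mul_le_mul_of_nonneg_left (le_max_left _ _) hn0
      have e2 : (n : ℝ) * H' ≤ n * max (2 * H) H' :=
        mul_le_mul_of_nonneg_left (le_max_right _ _) hn0
      have e3 := hX₀ (X / 2) (by linarith) n hn (by linarith)
      have e4 := hX₀' X hX3 n hn (by linarith)
      have e5 := TS_split S hc.le (by linarith : 0 < X) n
      have e6 : 0 < ε * X := by positivity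
      linarith

/-- MRS -/
theorem mrs (h1 : S_MRW) (h2 : S_MW0) : S_MRS := by
  intro M S hM h4 hS σ hσ hσ1 ε hε
  obtain ⟨k, hk⟩ := exists_pow_lt_of_lt_one hσ (by norm_num : (1 / 2 : ℝ) < 1)
  have hk' : 1 / 2 ^ (k + 1) ≤ σ := by
    have e1 : (1 : ℝ) / 2 ^ (k + 1) ≤ (1 / 2) ^ k := by
      rw [one_div_pow]
      apply one_div_le_one_div_of_le (by positivity)
      exact pow_le_pow_right₀ (by norm_num) (by omega)
    linarith
  exact steps h1 h2 M S hM h4 hS k σ hk' hσ1 ε hε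

end Pool.Agent.W883.EC
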