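import Pool.Agent.W883.EC.Four

/-!
Project EC (helper883): sums over the arcs of a division of the circle are controlled by the
low Fourier coefficients.
-/

set_option autoImplicit false

namespace Pool.Agent.W883.EC

open Finset
open Pool.Agent.H376R2.MR

lemma norm_one_sub_ex (u : ℝ) : ‖1 - ex u‖ ^ 2 = 4 * Real.sin (u / 2) ^ 2 := by
  have h1 : 1 - ex u = ((1 - Real.cos u : ℝ) : ℂ) + ((- Real.sin u : ℝ) : ℂ) * Complex.I := by
    unfold ex
    rw [Complex.exp_mul_I]
    push_cast
    ring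
  rw [h1, ← Complex.normSq_eq_norm_sq, Complex.normSq_add_mul_I]
  have h2 := Real.cos_sq_add_sin_sq u
  have h3 : Real.cos u = 1 - 2 * Real.sin (u / 2) ^ 2 := by
    have h4 := Real.cos_sq_add_sin_sq (u / 2)
    have h5 := Real.cos_two_mul (u / 2)
    rw [show 2 * (u / 2) = u by ring] at h5
    linarith
  nlinarith

lemma norm_one_sub_ex_ge {u δ : ℝ} (hδ : 0 ≤ δ) (h1 : δ ≤ |u|) (h2 : |u| ≤ 2 * Real.pi - δ) :
    4 * δ ^ 2 / Real.pi ^ 2 ≤ ‖1 - ex u‖ ^ 2 := by
  have hpi := Real.pi_pos
  rw [norm_one_sub_ex]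
  have h3 : Real.sin (u / 2) ^ 2 = Real.sin (|u| / 2) ^ 2 := by
    rcases abs_cases u with ⟨h, _⟩ | ⟨h, _⟩
    · rw [h]
    · rw [h, neg_div, Real.sin_neg]
      ring
  rw [h3]
  have hδ2 : δ ≤ Real.pi := by linarith
  have h4 : 2 / Real.pi * (δ / 2) ≤ Real.sin (|u| / 2) := by
    by_cases hc : |u| / 2 ≤ Real.pi / 2
    · refine le_trans ?_ (Real.mul_le_sin (by positivity) hc)
      refine mul_le_mul_of_nonneg_left (by linarith) (by positivity)
    · push Not at hc
      have h5 : Real.sin (|u| / 2) = Real.sin (Real.pi - |u| / 2) := by rw [Real.sin_pi_sub]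
      rw [h5]
      refine le_trans ?_ (Real.mul_le_sin (by linarith) (by linarith))
      refine mul_le_mul_of_nonneg_left (by linarith) (by positivity)
  have h6 : 0 ≤ 2 / Real.pi * (δ / 2) := by positivity
  have h7 : (2 / Real.pi * (δ / 2)) ^ 2 ≤ Real.sin (|u| / 2) ^ 2 := pow_le_pow_left₀ h6 h4 2
  have h8 : 4 * δ ^ 2 / Real.pi ^ 2 = 4 * (2 / Real.pi * (δ / 2)) ^ 2 := by
    field_simp
    try ring
  rw [h8]
  linarith

/-- Cauchy-Schwarz for the average -/
lemma avg_le_sqrt (N : ℕ) (hN : 1 ≤ N) (G : ℕ → ℝ) (B : ℝ)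
    (h : ∑ m ∈ range N, G m ^ 2 ≤ N * B) :
    (1 / (N : ℝ)) * ∑ m ∈ range N, |G m| ≤ Real.sqrt B := by
  have hN0 : (0 : ℝ) < N := by exact_mod_cast hN
  apply Real.le_sqrt_of_sq_le
  have h1 : (∑ m ∈ range N, |G m|) ^ 2 ≤ N * ∑ m ∈ range N, |G m| ^ 2 := by
    have := sq_sum_le_card_mul_sum_sq (s := range N) (f := fun m => |G m|)
    rwa [card_range] at this
  simp only [sq_abs] at h1
  rw [mul_pow]
  have h2 : (∑ m ∈ range N, |G m|) ^ 2 ≤ N * (N * B) :=
    h1.trans (mul_le_mul_of_nonneg_left h hN0.le)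
  calc (1 / (N : ℝ)) ^ 2 * (∑ m ∈ range N, |G m|) ^ 2
      ≤ (1 / (N : ℝ)) ^ 2 * (N * (N * B)) := mul_le_mul_of_nonneg_left h2 (by positivity)
    _ = B := by field_simp

lemma tail_const {M : ℕ} (hM : 1 ≤ M) {δ : ℝ} (hδ : 0 < δ) :
    Real.pi ^ 2 / (4 * δ ^ 2) * ((2 * M + 1) / QQ M) ≤ 23 / (M * δ) ^ 2 := by
  have hM0 : (0 : ℝ) < M := by exact_mod_cast hM
  have hM1 : (1 : ℝ) ≤ M := by exact_mod_cast hM
  have hQ := QQ_pos hM
  have h7 : (2 * (M : ℝ) + 1) / QQ M ≤ 9 / (M : ℝ) ^ 2 := by
    have h8 := QQ_ge M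
    rw [div_le_div_iff₀ hQ (by positivity)]
    have h9 : (2 * (M : ℝ) + 1) * (M : ℝ) ^ 2 ≤ 3 * (M : ℝ) * (M : ℝ) ^ 2 :=
      mul_le_mul_of_nonneg_right (by linarith) (by positivity)
    have h10 : 3 * (M : ℝ) * (M : ℝ) ^ 2 = 9 * ((M : ℝ) ^ 3 / 3) := by ring
    linarith
  have h10 : Real.pi ^ 2 ≤ 10 := by
    have h11 := Real.pi_lt_d2
    have h12 := Real.pi_pos
    nlinarith
  calc Real.pi ^ 2 / (4 * δ ^ 2) * ((2 * M + 1) / QQ M)
      ≤ 10 / (4 * δ ^ 2) * (9 / (M : ℝ) ^ 2) := by
        refine mul_le_mul ?_ h7 (by positivity) (by positivity)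
        exact div_le_div_of_nonneg_right h10 (by positivity)
    _ = (90 / 4) / (M * δ) ^ 2 := by
        field_simp
        norm_num
    _ ≤ 23 / (M * δ) ^ 2 := by
        refine div_le_div_of_nonneg_right (by norm_num) (by positivity)

/-- `x` is close to a boundary point of the division into `n` arcs -/
def Bd (n : ℕ) (δ x : ℝ) : Prop := ∃ j ∈ range (n + 1), |x - (-Real.pi + 2 * Real.pi * j / n)| ≤ δ

open scoped Classical in
theorem ang_main {ι : Type*} (s : Finset ι) (α a : ι → ℝ)
    (hα : ∀ z ∈ s, -Real.pi < α z ∧ α z ≤ Real.pi) (ha : ∀ z ∈ s, |a z| ≤ 1)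
    (M n : ℕ) (hM : 1 ≤ M) (hn : 1 ≤ n) (δ : ℝ) (hδ : 0 < δ) :
    ∑ j ∈ range (n + 1),
      |∑ z ∈ s.filter (fun z => ⌊(α z + Real.pi) * n / (2 * Real.pi)⌋ = (j : ℤ)), a z| ≤
    Real.sqrt (∑ k ∈ FK (2 * M + 1), ‖∑ z ∈ s, (a z : ℂ) * ex (k * α z)‖ ^ 2) +
    2 * ((s.filter (fun z => Bd n δ (α z))).card : ℝ) +
    2 * (s.card : ℝ) * (23 / (M * δ) ^ 2) := by
  have hpi := Real.pi_pos
  set R : ℕ := 4 * M + 1 with hR
  set N : ℕ := n * R with hN
  have hR1 : 1 ≤ R := by omega
  have hRN : R ≤ N := by rw [hN]; exact Nat.le_mul_of_pos_left R hn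
  have hN1 : 1 ≤ N := hR1.trans hRN
  have hN2 : 2 * M + 1 ≤ N := by omega
  have hN0 : (0 : ℝ) < N := by exact_mod_cast hN1
  have hn0 : (0 : ℝ) < n := by exact_mod_cast hn
  have hR0 : (0 : ℝ) < R := by exact_mod_cast hR1
  have hNR : (N : ℝ) = n * R := by rw [hN]; push_cast; ring
  have hM0 : (0 : ℝ) < M := by exact_mod_cast hM
  have hQ := QQ_pos hM
  set Q := QQ M with hQdef
  -- the kernel at the grid points
  set J : ℕ → ι → ℝ := fun m z => ‖pp M ((-Real.pi - α z) + 2 * Real.pi * m / N)‖ ^ 2 / Q with hJ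
  have hJ0 : ∀ m z, 0 ≤ J m z := fun m z => by simp only [hJ]; positivity
  have hJ1 : ∀ z, (1 / (N : ℝ)) * ∑ m ∈ range N, J m z = 1 := by
    intro z
    simp only [hJ]
    rw [← Finset.sum_div, mean_pp M N hN2, ← hQdef]
    field_simp
  -- the weights
  set W : ℕ → ι → ℝ := fun j z => (1 / (N : ℝ)) * ∑ m ∈ (range N).filter (fun m => m / R = j), J m z
    with hW
  have hmaps : ∀ m ∈ range N, m / R ∈ range (n + 1) := by
    intro m hm
    rw [mem_range] at hm ⊢
    have : m / R < n := by
      rw [Nat.div_lt_iff_lt_mul (by omega)]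
      exact hm
    omega
  have hW1 : ∀ z, ∑ j ∈ range (n + 1), W j z = 1 := by
    intro z
    simp only [hW]
    rw [← Finset.mul_sum, Finset.sum_fiberwise_of_maps_to hmaps, hJ1]
  have hW0 : ∀ j z, 0 ≤ W j z := by
    intro j z
    simp only [hW]
    exact mul_nonneg (by positivity) (Finset.sum_nonneg fun m _ => hJ0 m z)
  have hWle : ∀ j ∈ range (n + 1), ∀ z, W j z ≤ 1 := by
    intro j hj z
    rw [← hW1 z]
    exact Finset.single_le_sum (f := fun j => W j z) (fun i _ => hW0 i z) hj
  -- index of z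
  set ix : ι → ℤ := fun z => ⌊(α z + Real.pi) * n / (2 * Real.pi)⌋ with hix
  have hixr : ∀ z ∈ s, 0 ≤ ix z ∧ ix z ≤ n := by
    intro z hz
    obtain ⟨h1, h2⟩ := hα z hz
    constructor
    · apply Int.floor_nonneg.2
      have : 0 ≤ α z + Real.pi := by linarith
      positivity
    · have h3 : (α z + Real.pi) * n / (2 * Real.pi) ≤ n := by
        rw [div_le_iff₀ (by positivity)]
        nlinarith
      have h4 : (ix z : ℝ) ≤ n := (Int.floor_le _).trans h3
      exact_mod_cast h4
  -- indicator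
  set e : ℕ → ι → ℝ := fun j z => if ix z = (j : ℤ) then 1 else 0 with he
  have he1 : ∀ z ∈ s, ∑ j ∈ range (n + 1), e j z = 1 := by
    intro z hz
    obtain ⟨h1, h2⟩ := hixr z hz
    rw [Finset.sum_eq_single_of_mem (ix z).toNat]
    · simp only [he]
      rw [if_pos (Int.toNat_of_nonneg h1).symm]
    · rw [mem_range]
      omega
    · intro j _ hj
      simp only [he]
      rw [if_neg]
      omega
  -- the two parts
  have hsplit : ∀ j ∈ range (n + 1), |∑ z ∈ s.filter (fun z => ix z = (j : ℤ)), a z| ≤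
      |∑ z ∈ s, a z * W j z| + ∑ z ∈ s, (e j z + W j z - 2 * (e j z * W j z)) := by
    intro j hj
    have h1 : ∑ z ∈ s.filter (fun z => ix z = (j : ℤ)), a z =
        ∑ z ∈ s, a z * W j z + ∑ z ∈ s, a z * (e j z - W j z) := by
      rw [← Finset.sum_add_distrib, Finset.sum_filter]
      refine Finset.sum_congr rfl fun z _ => ?_
      simp only [he]
      split_ifs <;> ring
    rw [h1]
    refine (abs_add_le _ _).trans (add_le_add le_rfl ?_)
    refine (Finset.abs_sum_le_sum_abs _ _).trans (Finset.sum_le_sum fun z hz => ?_)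
    rw [abs_mul]
    have h2 : |e j z - W j z| ≤ e j z + W j z - 2 * (e j z * W j z) := by
      have h3 := hW0 j z
      have h4 := hWle j hj z
      simp only [he]
      split_ifs
      · rw [abs_of_nonneg (by linarith)]
        linarith
      · rw [abs_of_nonpos (by linarith)]
        linarith
    calc |a z| * |e j z - W j z| ≤ 1 * |e j z - W j z| :=
          mul_le_mul_of_nonneg_right (ha z hz) (abs_nonneg _)
      _ ≤ _ := by rw [one_mul]; exact h2
  -- first part
  have hfirst : ∑ j ∈ range (n + 1), |∑ z ∈ s, a z * W j z| ≤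
      Real.sqrt (∑ k ∈ FK (2 * M + 1), ‖∑ z ∈ s, (a z : ℂ) * ex (k * α z)‖ ^ 2) := by
    set G : ℕ → ℝ := fun m => ∑ z ∈ s, a z * J m z with hG
    have h1 : ∀ j ∈ range (n + 1), |∑ z ∈ s, a z * W j z| ≤
        (1 / (N : ℝ)) * ∑ m ∈ (range N).filter (fun m => m / R = j), |G m| := by
      intro j _
      have h2 : ∑ z ∈ s, a z * W j z =
          (1 / (N : ℝ)) * ∑ m ∈ (range N).filter (fun m => m / R = j), G m := by
        simp only [hW, hG]
        rw [Finset.sum_comm, Finset.mul_sum]
        refine Finset.sum_congr rfl fun z _ => ?_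
        rw [← Finset.mul_sum]
        ring
      rw [h2, abs_mul, abs_of_nonneg (by positivity : (0 : ℝ) ≤ 1 / (N : ℝ))]
      exact mul_le_mul_of_nonneg_left (Finset.abs_sum_le_sum_abs _ _) (by positivity)
    refine (Finset.sum_le_sum h1).trans ?_
    rw [← Finset.mul_sum, Finset.sum_fiberwise_of_maps_to hmaps]
    apply avg_le_sqrt N hN1
    -- Parseval
    have h3 : ∀ m, (G m : ℂ) = ∑ k ∈ FK (2 * M + 1),
        ((cf M k : ℂ) / (Q : ℂ) * (ex (k * Real.pi) * ∑ z ∈ s, (a z : ℂ) * ex (k * α z))) *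
          ex (((-k : ℤ) : ℝ) * (0 + 2 * Real.pi * m / N)) := by
      intro m
      simp only [hG, hJ]
      push_cast
      have h4 : ∀ z ∈ s, (a z : ℂ) * (((‖pp M ((-Real.pi - α z) + 2 * Real.pi * m / N)‖ : ℝ) : ℂ) ^ 2
          / (Q : ℂ)) = ∑ k ∈ FK (2 * M + 1), (a z : ℂ) * ((cf M k : ℂ) *
            ex (k * (-((-Real.pi - α z) + 2 * Real.pi * m / N))) / (Q : ℂ)) := by
        intro z _
        have h5 := pp_sq M ((-Real.pi - α z) + 2 * Real.pi * m / N)
        push_cast at h5
        rw [h5, Finset.sum_div, Finset.mul_sum]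
      rw [Finset.sum_congr rfl h4, Finset.sum_comm]
      refine Finset.sum_congr rfl fun k _ => ?_
      rw [Finset.mul_sum, Finset.mul_sum, Finset.sum_mul]
      refine Finset.sum_congr rfl fun z _ => ?_
      have h6 : ex (k * (-((-Real.pi - α z) + 2 * Real.pi * m / N))) =
          ex (k * Real.pi) * ex (k * α z) * ex (-(k : ℝ) * (0 + 2 * Real.pi * m / N)) := by
        rw [← ex_add, ← ex_add]
        congr 1
        ring
      rw [h6]
      ring
    have h7 : ∀ m ∈ range N, G m ^ 2 = ‖∑ k ∈ FK (2 * M + 1),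
        ((cf M k : ℂ) / (Q : ℂ) * (ex (k * Real.pi) * ∑ z ∈ s, (a z : ℂ) * ex (k * α z))) *
          ex (((-k : ℤ) : ℝ) * (0 + 2 * Real.pi * m / N))‖ ^ 2 := by
      intro m _
      rw [← h3 m, Complex.norm_real, Real.norm_eq_abs, sq_abs]
    have hfr : ∀ i ∈ FK (2 * M + 1), ∀ j ∈ FK (2 * M + 1), (N : ℤ) ∣ (-i) - (-j) → i = j := by
      intro i hi j hj hd
      unfold FK at hi hj
      rw [mem_Ioo] at hi hj
      push_cast at hi hj
      have h8 : |(-i) - (-j)| < (N : ℤ) := by
        rw [abs_lt]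
        constructor <;> omega
      have h9 := Int.eq_zero_of_abs_lt_dvd hd h8
      omega
    rw [Finset.sum_congr rfl h7, pars (FK (2 * M + 1)) (fun k => -k) N hN1 hfr]
    refine mul_le_mul_of_nonneg_left (Finset.sum_le_sum fun k _ => ?_) hN0.le
    rw [norm_mul, norm_mul, norm_ex, one_mul, norm_div, Complex.norm_real, Complex.norm_real,
      Real.norm_eq_abs, Real.norm_eq_abs, abs_of_pos hQ, abs_of_nonneg (cf_nonneg M k), mul_pow]
    have h10 : cf M k / Q ≤ 1 := by
      rw [div_le_one hQ]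
      exact cf_le M k
    have h11 : (cf M k / Q) ^ 2 ≤ 1 := by
      have : 0 ≤ cf M k / Q := div_nonneg (cf_nonneg M k) hQ.le
      nlinarith
    calc (cf M k / Q) ^ 2 * ‖∑ z ∈ s, (a z : ℂ) * ex (k * α z)‖ ^ 2
        ≤ 1 * ‖∑ z ∈ s, (a z : ℂ) * ex (k * α z)‖ ^ 2 :=
          mul_le_mul_of_nonneg_right h11 (by positivity)
      _ = _ := one_mul _
  -- second part
  have hsecond : ∀ z ∈ s, ∑ j ∈ range (n + 1), (e j z + W j z - 2 * (e j z * W j z)) ≤
      2 * (if Bd n δ (α z) then 1 else 0) +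
      2 * (23 / (M * δ) ^ 2) := by
    intro z hz
    obtain ⟨hi1, hi2⟩ := hixr z hz
    obtain ⟨ha1, ha2⟩ := hα z hz
    have hj0m : (ix z).toNat ∈ range (n + 1) := by
      rw [mem_range]
      omega
    have hj0c : ((ix z).toNat : ℤ) = ix z := Int.toNat_of_nonneg hi1
    have h1 : ∑ j ∈ range (n + 1), e j z * W j z = W (ix z).toNat z := by
      rw [Finset.sum_eq_single_of_mem _ hj0m]
      · simp only [he]
        rw [if_pos hj0c.symm, one_mul]
      · intro j _ hj
        simp only [he]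
        rw [if_neg, zero_mul]
        omega
    have h2 : ∑ j ∈ range (n + 1), (e j z + W j z - 2 * (e j z * W j z)) =
        2 * (1 - W (ix z).toNat z) := by
      rw [Finset.sum_sub_distrib, Finset.sum_add_distrib, he1 z hz, hW1, ← Finset.mul_sum, h1]
      ring
    rw [h2]
    by_cases hb : Bd n δ (α z)
    · rw [if_pos hb]
      have h3 := hW0 (ix z).toNat z
      have h4 : (0 : ℝ) ≤ 2 * (23 / (M * δ) ^ 2) := by positivity
      linarith
    · rw [if_neg hb]
      unfold Bd at hb
      push Not at hb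
      -- the tail
      have h3 : 1 - W (ix z).toNat z =
          (1 / (N : ℝ)) * ∑ m ∈ (range N).filter (fun m => ¬ m / R = (ix z).toNat), J m z := by
        have h4 := hJ1 z
        rw [← Finset.sum_filter_add_sum_filter_not (range N) (fun m => m / R = (ix z).toNat)] at h4
        simp only [hW]
        rw [mul_add] at h4
        linarith
      have hj0 : ((ix z).toNat : ℝ) = (ix z : ℝ) := by exact_mod_cast hj0c
      have hfl1 : (ix z : ℝ) ≤ (α z + Real.pi) * n / (2 * Real.pi) := Int.floor_le _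
      have hfl2 : (α z + Real.pi) * n / (2 * Real.pi) < (ix z : ℝ) + 1 := Int.lt_floor_add_one _
      have hfl1' : 2 * Real.pi * (ix z : ℝ) / n ≤ α z + Real.pi := by
        rw [div_le_iff₀ hn0]
        rw [le_div_iff₀ (by positivity)] at hfl1
        linarith
      have hfl2' : α z + Real.pi < 2 * Real.pi * ((ix z : ℝ) + 1) / n := by
        rw [lt_div_iff₀ hn0]
        rw [div_lt_iff₀ (by positivity)] at hfl2
        linarith
      have hlt : (ix z).toNat < n := by
        by_contra hcon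
        have h5 : (ix z).toNat = n := by
          rw [mem_range] at hj0m
          omega
        have h6 := hb n (by rw [mem_range]; omega)
        have h7 : (ix z : ℝ) = n := by rw [← hj0, h5]
        rw [h7] at hfl1'
        have h8 : 2 * Real.pi * (n : ℝ) / n = 2 * Real.pi := by field_simp
        rw [h8] at hfl1' h6
        have h9 : α z = Real.pi := by linarith
        rw [h9] at h6
        have h10 : Real.pi - (-Real.pi + 2 * Real.pi) = 0 := by ring
        rw [h10, abs_zero] at h6
        linarith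
      have hbA : 2 * Real.pi * (ix z : ℝ) / n + δ ≤ α z + Real.pi := by
        have h5 := hb (ix z).toNat hj0m
        rw [hj0] at h5
        rw [lt_abs] at h5
        rcases h5 with h5 | h5 <;> linarith
      have hbB : α z + Real.pi + δ ≤ 2 * Real.pi * ((ix z : ℝ) + 1) / n := by
        have h5 := hb ((ix z).toNat + 1) (by rw [mem_range]; omega)
        push_cast at h5
        rw [hj0] at h5
        rw [lt_abs] at h5
        rcases h5 with h5 | h5 <;> linarith
      have hbC : δ ≤ α z + Real.pi := by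
        have h5 := hb 0 (by rw [mem_range]; omega)
        push_cast at h5
        rw [mul_zero, zero_div, add_zero, lt_abs] at h5
        rcases h5 with h5 | h5 <;> linarith
      have hbD : α z + δ ≤ Real.pi := by
        have h5 := hb n (by rw [mem_range]; omega)
        have h8 : 2 * Real.pi * (n : ℝ) / n = 2 * Real.pi := by field_simp
        rw [h8, lt_abs] at h5
        rcases h5 with h5 | h5 <;> linarith
      have hfar : ∀ m ∈ (range N).filter (fun m => ¬ m / R = (ix z).toNat),
          J m z ≤ Real.pi ^ 2 / (4 * δ ^ 2) / Q *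
            (‖1 - ex ((-Real.pi - α z) + 2 * Real.pi * m / N)‖ ^ 2 *
              ‖pp M ((-Real.pi - α z) + 2 * Real.pi * m / N)‖ ^ 2) := by
        intro m hm
        rw [mem_filter, mem_range] at hm
        obtain ⟨hmN, hmR⟩ := hm
        set u : ℝ := (-Real.pi - α z) + 2 * Real.pi * m / N with hu
        have hm0 : (0 : ℝ) ≤ 2 * Real.pi * m / N := by positivity
        have hm1 : 2 * Real.pi * m / N ≤ 2 * Real.pi := by
          rw [div_le_iff₀ hN0]
          have : (m : ℝ) ≤ N := by exact_mod_cast hmN.le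
          nlinarith
        have h5 : δ ≤ |u| := by
          rcases lt_or_gt_of_ne hmR with h6 | h6
          · -- m / R < ix
            have h7 : m < (ix z).toNat * R := (Nat.div_lt_iff_lt_mul (by omega)).1 h6
            have h8 : (m : ℝ) ≤ (ix z : ℝ) * R := by
              rw [← hj0]
              exact_mod_cast h7.le
            have h9 : 2 * Real.pi * m / N ≤ 2 * Real.pi * (ix z : ℝ) / n := by
              rw [hNR, div_le_div_iff₀ (by positivity) hn0]
              have : 2 * Real.pi * n * m ≤ 2 * Real.pi * n * ((ix z : ℝ) * R) :=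
                mul_le_mul_of_nonneg_left h8 (by positivity)
              linarith
            rw [hu, le_abs]
            right
            linarith
          · have h7 : ((ix z).toNat + 1) * R ≤ m := (Nat.le_div_iff_mul_le (by omega)).1 h6
            have h8 : ((ix z : ℝ) + 1) * R ≤ m := by
              rw [← hj0]
              exact_mod_cast h7
            have h9 : 2 * Real.pi * ((ix z : ℝ) + 1) / n ≤ 2 * Real.pi * m / N := by
              rw [hNR, div_le_div_iff₀ hn0 (by positivity)]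
              have : 2 * Real.pi * n * (((ix z : ℝ) + 1) * R) ≤ 2 * Real.pi * n * m :=
                mul_le_mul_of_nonneg_left h8 (by positivity)
              linarith
            rw [hu, le_abs]
            left
            linarith
        have h6 : |u| ≤ 2 * Real.pi - δ := by
          rw [hu, abs_le]
          constructor <;> linarith
        have h7 := norm_one_sub_ex_ge hδ.le h5 h6
        simp only [hJ]
        have h8 : 1 ≤ Real.pi ^ 2 / (4 * δ ^ 2) * ‖1 - ex u‖ ^ 2 := by
          have h9 : Real.pi ^ 2 / (4 * δ ^ 2) * (4 * δ ^ 2 / Real.pi ^ 2) = 1 := by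
            field_simp
          rw [← h9]
          exact mul_le_mul_of_nonneg_left h7 (by positivity)
        have h9 : 0 ≤ ‖pp M u‖ ^ 2 / Q := by positivity
        calc ‖pp M u‖ ^ 2 / Q = 1 * (‖pp M u‖ ^ 2 / Q) := (one_mul _).symm
          _ ≤ (Real.pi ^ 2 / (4 * δ ^ 2) * ‖1 - ex u‖ ^ 2) * (‖pp M u‖ ^ 2 / Q) :=
            mul_le_mul_of_nonneg_right h8 h9
          _ = _ := by ring
      have htail : 1 - W (ix z).toNat z ≤ 23 / (M * δ) ^ 2 := by
        rw [h3]
        have h5 : ∑ m ∈ (range N).filter (fun m => ¬ m / R = (ix z).toNat), J m z ≤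
            Real.pi ^ 2 / (4 * δ ^ 2) / Q * (N * (2 * M + 1)) := by
          refine (Finset.sum_le_sum hfar).trans ?_
          rw [← Finset.mul_sum]
          refine mul_le_mul_of_nonneg_left ?_ (by positivity)
          refine le_trans ?_ (mom_pp M N hN2 (-Real.pi - α z))
          exact Finset.sum_le_sum_of_subset_of_nonneg (Finset.filter_subset _ _)
            (fun _ _ _ => by positivity)
        have h6 : (1 / (N : ℝ)) * (Real.pi ^ 2 / (4 * δ ^ 2) / Q * (N * (2 * M + 1))) =
            Real.pi ^ 2 / (4 * δ ^ 2) * ((2 * M + 1) / Q) := by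
          field_simp
        refine (mul_le_mul_of_nonneg_left h5 (by positivity)).trans ?_
        rw [h6]
        exact tail_const hM hδ
      linarith
  -- conclusion
  have hfin : ∑ j ∈ range (n + 1), ∑ z ∈ s, (e j z + W j z - 2 * (e j z * W j z)) ≤
      2 * ((s.filter (fun z => Bd n δ (α z))).card : ℝ) +
      2 * (s.card : ℝ) * (23 / (M * δ) ^ 2) := by
    rw [Finset.sum_comm]
    refine (Finset.sum_le_sum hsecond).trans ?_
    have hcard : ((s.filter (fun z => Bd n δ (α z))).card : ℝ) =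
        ∑ z ∈ s, (if Bd n δ (α z) then (1 : ℝ) else 0) := by
      rw [Finset.card_filter]
      push_cast
      rfl
    rw [Finset.sum_add_distrib, ← Finset.mul_sum, Finset.sum_const, nsmul_eq_mul, ← hcard]
    apply le_of_eq
    ring
  calc ∑ j ∈ range (n + 1), |∑ z ∈ s.filter (fun z => ix z = (j : ℤ)), a z|
      ≤ ∑ j ∈ range (n + 1), (|∑ z ∈ s, a z * W j z| +
        ∑ z ∈ s, (e j z + W j z - 2 * (e j z * W j z))) := Finset.sum_le_sum hsplit
    _ = ∑ j ∈ range (n + 1), |∑ z ∈ s, a z * W j z| +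
        ∑ j ∈ range (n + 1), ∑ z ∈ s, (e j z + W j z - 2 * (e j z * W j z)) :=
        Finset.sum_add_distrib
    _ ≤ _ := by linarith

end Pool.Agent.W883.EC
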