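import Pool.Agent.H376R2.MR.Defs

/-!
Project EC (helper883): discrete Parseval identity and a positive kernel with small second moment.
-/

set_option autoImplicit false

namespace Pool.Agent.W883.EC

open Finset
open Pool.Agent.H376R2.MR

/-- `e^{ix}` -/
noncomputable def ex (x : ℝ) : ℂ := Complex.exp ((x : ℂ) * Complex.I)

lemma ex_add (x y : ℝ) : ex (x + y) = ex x * ex y := by
  unfold ex
  rw [← Complex.exp_add]
  congr 1
  push_cast
  ring

@[simp] lemma ex_zero : ex 0 = 1 := by simp [ex]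

lemma norm_ex (x : ℝ) : ‖ex x‖ = 1 := Complex.norm_exp_ofReal_mul_I x

lemma conj_ex (x : ℝ) : (starRingEnd ℂ) (ex x) = ex (-x) := by
  unfold ex
  rw [← Complex.exp_conj]
  congr 1
  simp

lemma ex_nat_mul (m : ℕ) (x : ℝ) : ex (m * x) = ex x ^ m := by
  unfold ex
  rw [← Complex.exp_nat_mul]
  congr 1
  push_cast
  ring

lemma ex_eq_one {x : ℝ} (h : ex x = 1) : ∃ n : ℤ, x = n * (2 * Real.pi) := by
  unfold ex at h
  obtain ⟨n, hn⟩ := Complex.exp_eq_one_iff.1 h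
  refine ⟨n, ?_⟩
  have h1 : (x : ℂ) * Complex.I = ((n * (2 * Real.pi) : ℝ) : ℂ) * Complex.I := by
    rw [hn]
    push_cast
    ring
  have h2 := mul_right_cancel₀ Complex.I_ne_zero h1
  exact_mod_cast h2

lemma ex_int_two_pi (n : ℤ) : ex (n * (2 * Real.pi)) = 1 := by
  unfold ex
  rw [Complex.exp_eq_one_iff]
  exact ⟨n, by push_cast; ring⟩

/-- orthogonality -/
lemma orth (N : ℕ) (hN : 1 ≤ N) (k : ℤ) (hk : ¬ (N : ℤ) ∣ k) :
    ∑ m ∈ range N, ex (k * (2 * Real.pi * m / N)) = 0 := by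
  have hN0 : (N : ℝ) ≠ 0 := by positivity
  have h1 : ∀ m : ℕ, ex (k * (2 * Real.pi * m / N)) = ex (k * (2 * Real.pi) / N) ^ m := by
    intro m
    rw [← ex_nat_mul]
    congr 1
    ring
  rw [Finset.sum_congr rfl (fun m _ => h1 m)]
  have hne : ex (k * (2 * Real.pi) / N) ≠ 1 := by
    intro h
    obtain ⟨n, hn⟩ := ex_eq_one h
    apply hk
    refine ⟨n, ?_⟩
    have hp : (2 * Real.pi) ≠ 0 := by positivity
    have h2 : (k : ℝ) = N * n := by
      field_simp at hn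
      linarith
    exact_mod_cast h2
  rw [geom_sum_eq hne, ← ex_nat_mul]
  have h3 : (N : ℝ) * (k * (2 * Real.pi) / N) = k * (2 * Real.pi) := by field_simp
  rw [h3, ex_int_two_pi, sub_self, zero_div]

/-- discrete Parseval identity -/
lemma pars {ι : Type*} (F : Finset ι) (f : ι → ℤ) (N : ℕ) (hN : 1 ≤ N)
    (hf : ∀ i ∈ F, ∀ j ∈ F, (N : ℤ) ∣ f i - f j → i = j) (b : ι → ℂ) (x : ℝ) :
    ∑ m ∈ range N, ‖∑ i ∈ F, b i * ex (f i * (x + 2 * Real.pi * m / N))‖ ^ 2 =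
      N * ∑ i ∈ F, ‖b i‖ ^ 2 := by
  classical
  have key : ((∑ m ∈ range N, ‖∑ i ∈ F, b i * ex (f i * (x + 2 * Real.pi * m / N))‖ ^ 2 : ℝ) : ℂ) =
      ((N * ∑ i ∈ F, ‖b i‖ ^ 2 : ℝ) : ℂ) := by
    push_cast
    have h1 : ∀ m ∈ range N, ((‖∑ i ∈ F, b i * ex (f i * (x + 2 * Real.pi * m / N))‖ : ℝ) : ℂ) ^ 2 =
        ∑ i ∈ F, ∑ j ∈ F, (b i * (starRingEnd ℂ) (b j) * ex (((f i - f j : ℤ) : ℝ) * x)) *
          ex (((f i - f j : ℤ) : ℝ) * (2 * Real.pi * m / N)) := by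
      intro m _
      rw [← Complex.mul_conj', map_sum, Finset.sum_mul_sum]
      refine Finset.sum_congr rfl fun i _ => Finset.sum_congr rfl fun j _ => ?_
      rw [map_mul, conj_ex]
      have : ex (f i * (x + 2 * Real.pi * m / N)) * ex (-(f j * (x + 2 * Real.pi * m / N))) =
          ex (((f i - f j : ℤ) : ℝ) * x) * ex (((f i - f j : ℤ) : ℝ) * (2 * Real.pi * m / N)) := by
        rw [← ex_add, ← ex_add]
        congr 1
        push_cast
        ring
      calc b i * ex (f i * (x + 2 * Real.pi * m / N)) *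
            ((starRingEnd ℂ) (b j) * ex (-(f j * (x + 2 * Real.pi * m / N))))
          = b i * (starRingEnd ℂ) (b j) * (ex (f i * (x + 2 * Real.pi * m / N)) *
            ex (-(f j * (x + 2 * Real.pi * m / N)))) := by ring
        _ = _ := by rw [this]; ring
    rw [Finset.sum_congr rfl h1, Finset.sum_comm, Finset.mul_sum]
    refine Finset.sum_congr rfl fun i hi => ?_
    rw [Finset.sum_comm]
    rw [Finset.sum_eq_single_of_mem i hi]
    · rw [Finset.sum_congr rfl (g := fun _ => b i * (starRingEnd ℂ) (b i))]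
      · rw [Finset.sum_const, card_range, nsmul_eq_mul, Complex.mul_conj']
      · intro m _
        simp
    · intro j hj hji
      rw [← Finset.mul_sum, orth N hN (f i - f j) (fun h => hji (hf i hi j hj h).symm), mul_zero]
  exact_mod_cast key

/-- the tent -/
def ct (M l : ℕ) : ℕ := min l (2 * M - l)

/-- the polynomial -/
noncomputable def pp (M : ℕ) (u : ℝ) : ℂ := ∑ l ∈ range (2 * M + 1), ((ct M l : ℝ) : ℂ) * ex (l * u)

/-- its norm -/
noncomputable def QQ (M : ℕ) : ℝ := ∑ l ∈ range (2 * M + 1), (ct M l : ℝ) ^ 2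

lemma QQ_ge (M : ℕ) : (M : ℝ) ^ 3 / 3 ≤ QQ M := by
  have h1 : ∀ m : ℕ, (m : ℝ) ^ 3 / 3 ≤ ∑ l ∈ range (m + 1), (l : ℝ) ^ 2 := by
    intro m
    induction m with
    | zero => simp
    | succ m ih =>
      rw [Finset.sum_range_succ]
      push_cast
      have : (0 : ℝ) ≤ m := Nat.cast_nonneg m
      nlinarith
  have h2 : ∑ l ∈ range (M + 1), (l : ℝ) ^ 2 = ∑ l ∈ range (M + 1), (ct M l : ℝ) ^ 2 := by
    refine Finset.sum_congr rfl fun l hl => ?_
    rw [mem_range] at hl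
    have : ct M l = l := by unfold ct; omega
    rw [this]
  refine (h1 M).trans (h2.le.trans ?_)
  unfold QQ
  refine Finset.sum_le_sum_of_subset_of_nonneg ?_ (fun _ _ _ => by positivity)
  intro l hl
  rw [mem_range] at hl ⊢
  omega

lemma QQ_pos {M : ℕ} (hM : 1 ≤ M) : 0 < QQ M := by
  have h := QQ_ge M
  have : (0 : ℝ) < M := by exact_mod_cast hM
  have : (0 : ℝ) < (M : ℝ) ^ 3 / 3 := by positivity
  linarith

lemma freq {M N : ℕ} (hN : 2 * M + 1 ≤ N) : ∀ i ∈ range (2 * M + 1), ∀ j ∈ range (2 * M + 1),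
    (N : ℤ) ∣ (i : ℤ) - (j : ℤ) → i = j := by
  intro i hi j hj h
  rw [mem_range] at hi hj
  have h1 : |(i : ℤ) - j| < N := by
    rw [abs_lt]
    constructor <;> omega
  have h2 := Int.eq_zero_of_abs_lt_dvd h h1
  omega

/-- the mean of the kernel -/
lemma mean_pp (M N : ℕ) (hN : 2 * M + 1 ≤ N) (x : ℝ) :
    ∑ m ∈ range N, ‖pp M (x + 2 * Real.pi * m / N)‖ ^ 2 = N * QQ M := by
  have h := pars (range (2 * M + 1)) (fun l : ℕ => (l : ℤ)) N (by omega) (freq hN)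
    (fun l => ((ct M l : ℝ) : ℂ)) x
  unfold pp QQ
  simp only [Int.cast_natCast] at h
  rw [h]
  congr 1
  refine Finset.sum_congr rfl fun l _ => ?_
  rw [Complex.norm_real, Real.norm_eq_abs, sq_abs]

lemma diff_pp (M : ℕ) (u : ℝ) : (1 - ex u) * pp M u =
    ∑ l ∈ range (2 * M + 1), (((ct M l : ℝ) - (ct M (l - 1) : ℝ) : ℝ) : ℂ) * ex (l * u) := by
  have h1 : ex u * pp M u = ∑ l ∈ range (2 * M + 1), ((ct M (l - 1) : ℝ) : ℂ) * ex (l * u) := by
    rw [Finset.sum_range_succ']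
    unfold pp
    rw [Finset.sum_range_succ]
    have e1 : ct M (2 * M) = 0 := by unfold ct; omega
    have e2 : ct M (0 - 1) = 0 := by unfold ct; omega
    rw [e1, e2]
    simp only [Nat.cast_zero, Complex.ofReal_zero, zero_mul, add_zero]
    rw [Finset.mul_sum]
    refine Finset.sum_congr rfl fun l _ => ?_
    have e3 : l + 1 - 1 = l := by omega
    rw [e3]
    have e4 : (((l + 1 : ℕ) : ℝ)) * u = u + l * u := by push_cast; ring
    rw [e4, ex_add]
    ring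
  rw [sub_mul, one_mul, h1]
  unfold pp
  rw [← Finset.sum_sub_distrib]
  refine Finset.sum_congr rfl fun l _ => ?_
  push_cast
  ring

/-- the second moment of the kernel -/
lemma mom_pp (M N : ℕ) (hN : 2 * M + 1 ≤ N) (x : ℝ) :
    ∑ m ∈ range N, ‖1 - ex (x + 2 * Real.pi * m / N)‖ ^ 2 * ‖pp M (x + 2 * Real.pi * m / N)‖ ^ 2 ≤
      N * (2 * M + 1) := by
  have h := pars (range (2 * M + 1)) (fun l : ℕ => (l : ℤ)) N (by omega) (freq hN)
    (fun l => (((ct M l : ℝ) - (ct M (l - 1) : ℝ) : ℝ) : ℂ)) x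
  simp only [Int.cast_natCast] at h
  have h1 : ∀ m ∈ range N, ‖1 - ex (x + 2 * Real.pi * m / N)‖ ^ 2 *
      ‖pp M (x + 2 * Real.pi * m / N)‖ ^ 2 = ‖∑ l ∈ range (2 * M + 1),
        (((ct M l : ℝ) - (ct M (l - 1) : ℝ) : ℝ) : ℂ) * ex (l * (x + 2 * Real.pi * m / N))‖ ^ 2 := by
    intro m _
    rw [← diff_pp, norm_mul, mul_pow]
  rw [Finset.sum_congr rfl h1, h]
  refine mul_le_mul_of_nonneg_left ?_ (Nat.cast_nonneg _)
  have h2 : ∀ l ∈ range (2 * M + 1), ‖(((ct M l : ℝ) - (ct M (l - 1) : ℝ) : ℝ) : ℂ)‖ ^ 2 ≤ 1 := by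
    intro l hl
    rw [Complex.norm_real, Real.norm_eq_abs, sq_abs]
    rw [mem_range] at hl
    have h3 : ct M l ≤ ct M (l - 1) + 1 ∧ ct M (l - 1) ≤ ct M l + 1 := by
      unfold ct
      omega
    obtain ⟨h4, h5⟩ := h3
    have h4' : (ct M l : ℝ) ≤ ct M (l - 1) + 1 := by exact_mod_cast h4
    have h5' : (ct M (l - 1) : ℝ) ≤ ct M l + 1 := by exact_mod_cast h5
    nlinarith
  refine (Finset.sum_le_sum h2).trans ?_
  rw [Finset.sum_const, card_range]
  simp

/-- Fourier coefficients of the kernel -/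
noncomputable def cf (M : ℕ) (k : ℤ) : ℝ :=
  ∑ q ∈ (range (2 * M + 1) ×ˢ range (2 * M + 1)).filter (fun q => (q.1 : ℤ) - q.2 = k),
    (ct M q.1 : ℝ) * ct M q.2

lemma cf_nonneg (M : ℕ) (k : ℤ) : 0 ≤ cf M k := Finset.sum_nonneg fun _ _ => by positivity

lemma cf_le (M : ℕ) (k : ℤ) : cf M k ≤ QQ M := by
  set F := (range (2 * M + 1) ×ˢ range (2 * M + 1)).filter (fun q => (q.1 : ℤ) - q.2 = k) with hF
  have hmem : ∀ q ∈ F, q.1 ∈ range (2 * M + 1) ∧ q.2 ∈ range (2 * M + 1) ∧ (q.1 : ℤ) - q.2 = k := by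
    intro q hq
    rw [hF, mem_filter, mem_product] at hq
    exact ⟨hq.1.1, hq.1.2, hq.2⟩
  have h1 : cf M k ≤ ∑ q ∈ F, ((ct M q.1 : ℝ) ^ 2 / 2 + (ct M q.2 : ℝ) ^ 2 / 2) := by
    unfold cf
    refine Finset.sum_le_sum fun q _ => ?_
    nlinarith [sq_nonneg ((ct M q.1 : ℝ) - ct M q.2)]
  have h2 : ∑ q ∈ F, (ct M q.1 : ℝ) ^ 2 ≤ QQ M := by
    have : ∑ q ∈ F, (ct M q.1 : ℝ) ^ 2 = ∑ l ∈ F.image Prod.fst, (ct M l : ℝ) ^ 2 := by
      rw [Finset.sum_image]
      intro q hq q' hq' h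
      have a := (hmem q hq).2.2
      have b := (hmem q' hq').2.2
      have h' : q.1 = q'.1 := h
      refine Prod.ext h' ?_
      rw [h'] at a
      omega
    rw [this]
    unfold QQ
    refine Finset.sum_le_sum_of_subset_of_nonneg ?_ (fun _ _ _ => by positivity)
    intro l hl
    rw [mem_image] at hl
    obtain ⟨q, hq, rfl⟩ := hl
    exact (hmem q hq).1
  have h3 : ∑ q ∈ F, (ct M q.2 : ℝ) ^ 2 ≤ QQ M := by
    have : ∑ q ∈ F, (ct M q.2 : ℝ) ^ 2 = ∑ l ∈ F.image Prod.snd, (ct M l : ℝ) ^ 2 := by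
      rw [Finset.sum_image]
      intro q hq q' hq' h
      have a := (hmem q hq).2.2
      have b := (hmem q' hq').2.2
      have h' : q.2 = q'.2 := h
      refine Prod.ext ?_ h'
      rw [h'] at a
      omega
    rw [this]
    unfold QQ
    refine Finset.sum_le_sum_of_subset_of_nonneg ?_ (fun _ _ _ => by positivity)
    intro l hl
    rw [mem_image] at hl
    obtain ⟨q, hq, rfl⟩ := hl
    exact (hmem q hq).2.1
  refine h1.trans ?_
  rw [Finset.sum_add_distrib, ← Finset.sum_div, ← Finset.sum_div]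
  linarith

/-- the kernel as a trigonometric polynomial -/
lemma pp_sq (M : ℕ) (u : ℝ) : ((‖pp M u‖ ^ 2 : ℝ) : ℂ) =
    ∑ k ∈ FK (2 * M + 1), (cf M k : ℂ) * ex (k * (-u)) := by
  have h1 : ((‖pp M u‖ ^ 2 : ℝ) : ℂ) = ∑ q ∈ range (2 * M + 1) ×ˢ range (2 * M + 1),
      (((ct M q.1 : ℝ) * ct M q.2 : ℝ) : ℂ) * ex ((((q.1 : ℤ) - q.2 : ℤ) : ℝ) * (-u)) := by
    push_cast
    rw [← Complex.conj_mul', Finset.sum_product]
    unfold pp
    rw [map_sum, Finset.sum_mul_sum]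
    refine Finset.sum_congr rfl fun i _ => Finset.sum_congr rfl fun j _ => ?_
    rw [map_mul, conj_ex, Complex.conj_ofReal]
    have : ex (-((i : ℝ) * u)) * ex (j * u) = ex (((i : ℝ) - j) * (-u)) := by
      rw [← ex_add]
      congr 1
      ring
    push_cast
    calc (ct M i : ℂ) * ex (-((i : ℝ) * u)) * ((ct M j : ℂ) * ex (j * u))
        = (ct M i : ℂ) * ct M j * (ex (-((i : ℝ) * u)) * ex (j * u)) := by ring
      _ = _ := by rw [this]
  rw [h1]
  have hmaps : ∀ q ∈ range (2 * M + 1) ×ˢ range (2 * M + 1),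
      ((q.1 : ℤ) - q.2) ∈ FK (2 * M + 1) := by
    intro q hq
    rw [mem_product, mem_range, mem_range] at hq
    unfold FK
    rw [mem_Ioo]
    push_cast
    omega
  rw [← Finset.sum_fiberwise_of_maps_to hmaps]
  refine Finset.sum_congr rfl fun k _ => ?_
  unfold cf
  push_cast
  rw [Finset.sum_mul]
  refine Finset.sum_congr rfl fun q hq => ?_
  rw [mem_filter] at hq
  have : ((q.1 : ℝ) - (q.2 : ℝ)) = (k : ℝ) := by
    have := hq.2
    rw [← this]
    push_cast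
    ring
  rw [this]

end Pool.Agent.W883.EC
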