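import Pool.Agent.W78.EC.Defs
import Pool.Agent.W45.GA.Lat
import Pool.Agent.W803.GA.Sect
import Pool.Agent.W883.EC.Ang

/-!
Project EC (helper883): M5, the sums of the Liouville function of the norm over most thin sectors.
-/

set_option autoImplicit false

namespace Pool.Agent.W883.EC

open Finset
open Pool.Agent.H376R2.MR
open Pool.Agent.W78.GA
open Pool.Agent.W78.EC

lemma hD01 : (0 : ℤ) ^ 2 < 4 * 1 := by norm_num

/-! ### the radial weight -/

/-- trapezoid -/
noncomputable def Ph (σ τ r : ℝ) : ℝ := min 1 (max 0 (min ((r - σ) / τ) ((1 - r) / τ)))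

lemma Ph_nonneg (σ τ r : ℝ) : 0 ≤ Ph σ τ r := le_min zero_le_one (le_max_left _ _)

lemma Ph_le (σ τ r : ℝ) : Ph σ τ r ≤ 1 := min_le_left _ _

lemma Ph_lip {σ τ : ℝ} (hτ : 0 < τ) (r r' : ℝ) : |Ph σ τ r - Ph σ τ r'| ≤ |r - r'| / τ := by
  unfold Ph
  refine (abs_min_sub_min_le_max _ _ _ _).trans (max_le ?_ ?_)
  · rw [sub_self, abs_zero]
    positivity
  refine (abs_max_sub_max_le_max _ _ _ _).trans (max_le ?_ ?_)
  · rw [sub_self, abs_zero]
    positivity
  refine (abs_min_sub_min_le_max _ _ _ _).trans (max_le ?_ ?_)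
  · apply le_of_eq
    rw [← sub_div, abs_div, abs_of_pos hτ]
    congr 2
    ring
  · apply le_of_eq
    rw [← sub_div, abs_div, abs_of_pos hτ, abs_sub_comm]
    congr 2
    ring

lemma Ph_zero_left {σ τ r : ℝ} (hτ : 0 < τ) (h : r ≤ σ) : Ph σ τ r = 0 := by
  unfold Ph
  have h1 : (r - σ) / τ ≤ 0 := div_nonpos_of_nonpos_of_nonneg (by linarith) hτ.le
  rw [max_eq_left ((min_le_left _ _).trans h1)]
  exact min_eq_right zero_le_one

lemma Ph_zero_right {σ τ r : ℝ} (hτ : 0 < τ) (h : 1 ≤ r) : Ph σ τ r = 0 := by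
  unfold Ph
  have h1 : (1 - r) / τ ≤ 0 := div_nonpos_of_nonpos_of_nonneg (by linarith) hτ.le
  rw [max_eq_left ((min_le_right _ _).trans h1)]
  exact min_eq_right zero_le_one

lemma Ph_one {σ τ r : ℝ} (hτ : 0 < τ) (h1 : σ + τ ≤ r) (h2 : r ≤ 1 - τ) : Ph σ τ r = 1 := by
  unfold Ph
  apply min_eq_left
  apply le_max_of_le_right
  apply le_min
  · rw [le_div_iff₀ hτ]
    linarith
  · rw [le_div_iff₀ hτ]
    linarith

/-- the weight -/
noncomputable def wq (σ τ v : ℝ) : ℝ := Real.exp (min v 0) * Ph σ τ (Real.exp (min v 0))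

lemma exp_lip {x y : ℝ} (hx : x ≤ 0) (hy : y ≤ 0) : |Real.exp x - Real.exp y| ≤ |x - y| := by
  have key : ∀ x y : ℝ, x ≤ y → y ≤ 0 → Real.exp y - Real.exp x ≤ y - x := by
    intro x y hxy hy
    have h1 : Real.exp x = Real.exp y * Real.exp (x - y) := by rw [← Real.exp_add]; congr 1; ring
    have h2 := Real.add_one_le_exp (x - y)
    have h3 : Real.exp y ≤ 1 := Real.exp_le_one_iff.2 hy
    have h4 := Real.exp_pos y
    rw [h1]
    have h5 : Real.exp y - Real.exp y * Real.exp (x - y) = Real.exp y * (1 - Real.exp (x - y)) := by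
      ring
    rw [h5]
    have h6 : Real.exp y * (1 - Real.exp (x - y)) ≤ Real.exp y * (y - x) :=
      mul_le_mul_of_nonneg_left (by linarith) h4.le
    have h7 : Real.exp y * (y - x) ≤ 1 * (y - x) := mul_le_mul_of_nonneg_right h3 (by linarith)
    linarith
  rcases le_total x y with h | h
  · rw [abs_sub_comm, abs_of_nonneg (sub_nonneg.2 (Real.exp_le_exp.2 h)), abs_sub_comm,
      abs_of_nonneg (sub_nonneg.2 h)]
    exact key x y h hy
  · rw [abs_of_nonneg (sub_nonneg.2 (Real.exp_le_exp.2 h)), abs_of_nonneg (sub_nonneg.2 h)]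
    exact key y x h hx

lemma wq_rw {σ τ : ℝ} (hσ : 1 / 2 ≤ σ) (hτ : 0 < τ) : Rw (1 + 1 / τ) (wq σ τ) where
  bd := by
    intro u
    unfold wq
    have h1 : Real.exp (min u 0) ≤ 1 := Real.exp_le_one_iff.2 (min_le_right _ _)
    have h2 := Real.exp_pos (min u 0)
    have h3 := Ph_nonneg σ τ (Real.exp (min u 0))
    have h4 := Ph_le σ τ (Real.exp (min u 0))
    rw [abs_of_nonneg (mul_nonneg h2.le h3)]
    calc _ ≤ 1 * 1 := mul_le_mul h1 h4 h3 zero_le_one
      _ = 1 := one_mul 1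
  lip := by
    intro u v
    unfold wq
    set x := Real.exp (min u 0) with hx
    set y := Real.exp (min v 0) with hy
    have hx1 : x ≤ 1 := Real.exp_le_one_iff.2 (min_le_right _ _)
    have hy1 : y ≤ 1 := Real.exp_le_one_iff.2 (min_le_right _ _)
    have hx0 : 0 < x := Real.exp_pos _
    have hy0 : 0 < y := Real.exp_pos _
    have h1 : |x - y| ≤ |u - v| := by
      refine (exp_lip (min_le_right _ _) (min_le_right _ _)).trans ?_
      refine (abs_min_sub_min_le_max _ _ _ _).trans (max_le le_rfl ?_)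
      rw [sub_self, abs_zero]
      exact abs_nonneg _
    have h2 : x * Ph σ τ x - y * Ph σ τ y = (x - y) * Ph σ τ x + y * (Ph σ τ x - Ph σ τ y) := by
      ring
    rw [h2]
    have h3 : |(x - y) * Ph σ τ x| ≤ |x - y| * 1 := by
      rw [abs_mul, abs_of_nonneg (Ph_nonneg σ τ x)]
      exact mul_le_mul_of_nonneg_left (Ph_le σ τ x) (abs_nonneg _)
    have h4 : |y * (Ph σ τ x - Ph σ τ y)| ≤ 1 * (|x - y| / τ) := by
      rw [abs_mul, abs_of_pos hy0]
      exact mul_le_mul hy1 (Ph_lip hτ x y) (abs_nonneg _) zero_le_one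
    have h5 : |x - y| / τ ≤ |u - v| / τ := div_le_div_of_nonneg_right h1 hτ.le
    have h6 := abs_add_le ((x - y) * Ph σ τ x) (y * (Ph σ τ x - Ph σ τ y))
    have h7 : (1 + 1 / τ) * |u - v| = |u - v| + |u - v| / τ := by ring
    rw [h7]
    linarith
  supp := by
    intro u hu
    unfold wq
    rcases le_abs.1 hu with h | h
    · rw [min_eq_right (by linarith : (0 : ℝ) ≤ u), Real.exp_zero, Ph_zero_right hτ le_rfl, mul_zero]
    · rw [min_eq_left (by linarith : u ≤ 0), Ph_zero_left hτ, mul_zero]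
      have h1 : Real.exp u ≤ Real.exp (-1) := Real.exp_le_exp.2 (by linarith)
      have h2 : Real.exp (-1) ≤ 1 / 2 := by
        rw [Real.exp_neg, ← one_div]
        apply one_div_le_one_div_of_le (by norm_num)
        have := Real.add_one_le_exp (1 : ℝ)
        linarith
      linarith

/-- the weight at the point `nm z` -/
lemma wq_val {σ τ X N : ℝ} (hτ : 0 < τ) (hX : 0 < X) (hN : 0 < N) :
    X * (wq σ τ (Real.log N - Real.log X) / N) = Ph σ τ (N / X) := by
  unfold wq
  rw [← Real.log_div hN.ne' hX.ne']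
  rcases le_total N X with h | h
  · have h1 : N / X ≤ 1 := (div_le_one hX).2 h
    rw [min_eq_left (Real.log_nonpos (by positivity) h1), Real.exp_log (by positivity)]
    field_simp
  · have h1 : 1 ≤ N / X := (one_le_div hX).2 h
    rw [min_eq_right (Real.log_nonneg h1), Real.exp_zero, Ph_zero_right hτ le_rfl,
      Ph_zero_right hτ h1]
    simp

/-! ### counting -/

lemma pball_count : ∃ κ C : ℝ, 0 < κ ∧ 0 < C ∧
    (∀ X : ℝ, 1 ≤ X → ((pball 0 1 X).card : ℝ) ≤ (κ + C) * X) ∧
    (∀ A B : ℝ, 1 ≤ A → A ≤ B →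
      (((pball 0 1 B).filter (fun z => A < (nm z : ℝ))).card : ℝ) ≤
        κ * (B - A) + 2 * C * Real.sqrt B) := by
  obtain ⟨C, hC, hlat, _⟩ := Pool.Agent.W45.GA.lat hD01
  have hk : 0 < kap 0 1 := by
    unfold kap
    have hpi := Real.pi_pos
    have : 0 < Real.sqrt (4 * ((1 : ℤ) : ℝ) - ((0 : ℤ) : ℝ) ^ 2) := by
      apply Real.sqrt_pos.2
      norm_num
    positivity
  have hcount : ∀ X : ℝ, 1 ≤ X → |((ball 0 1 X).card : ℝ) - kap 0 1 * X| ≤ C * Real.sqrt X := by
    intro X hX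
    have h := hlat X 1 0 hX le_rfl
    have h1 : (ball 0 1 X).filter (lat 1 0) = ball 0 1 X := by
      apply Finset.filter_true_of_mem
      intro z _
      unfold lat
      simp
    rw [h1] at h
    simpa using h
  refine ⟨kap 0 1, C, hk, hC, ?_, ?_⟩
  · intro X hX
    have h1 := (abs_le.1 (hcount X hX)).2
    have h2 : ((pball 0 1 X).card : ℝ) ≤ ((ball 0 1 X).card : ℝ) := by
      exact_mod_cast Finset.card_filter_le _ _
    have h3 : Real.sqrt X ≤ X := by
      rw [Real.sqrt_le_left (by linarith)]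
      nlinarith
    have h4 : C * Real.sqrt X ≤ C * X := mul_le_mul_of_nonneg_left h3 hC.le
    linarith
  · intro A B hA hAB
    have h1 := (abs_le.1 (hcount B (hA.trans hAB))).2
    have h2 := (abs_le.1 (hcount A hA)).1
    have hsub : ball 0 1 A ⊆ ball 0 1 B := by
      intro z hz
      rw [mem_ball hD01] at hz ⊢
      exact ⟨hz.1, hz.2.trans hAB⟩
    have h3 : ((pball 0 1 B).filter (fun z => A < (nm z : ℝ))).card ≤
        (ball 0 1 B \ ball 0 1 A).card := by
      apply Finset.card_le_card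
      intro z hz
      rw [mem_filter, mem_pball hD01] at hz
      rw [mem_sdiff, mem_ball hD01, mem_ball hD01]
      refine ⟨⟨(one_le_nm hD01).2 (prim_ne_zero hz.1.1), hz.1.2⟩, ?_⟩
      rintro ⟨_, h⟩
      linarith [hz.2]
    rw [Finset.card_sdiff_of_subset hsub] at h3
    have h4 : (((pball 0 1 B).filter (fun z => A < (nm z : ℝ))).card : ℝ) ≤
        ((ball 0 1 B).card : ℝ) - ((ball 0 1 A).card : ℝ) := by
      have h5 : (ball 0 1 A).card ≤ (ball 0 1 B).card := Finset.card_le_card hsub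
      have h6 : (((ball 0 1 B).card - (ball 0 1 A).card : ℕ) : ℝ) =
        ((ball 0 1 B).card : ℝ) - ((ball 0 1 A).card : ℝ) := Nat.cast_sub h5
      rw [← h6]
      exact_mod_cast h3
    have h5 : Real.sqrt A ≤ Real.sqrt B := Real.sqrt_le_sqrt hAB
    have h6 : C * Real.sqrt A ≤ C * Real.sqrt B := mul_le_mul_of_nonneg_left h5 hC.le
    linarith

open scoped Classical in
/-- the points near the boundaries of the arcs -/
lemma bad_count : ∃ C : ℝ, 0 < C ∧ ∀ (X δ : ℝ) (n : ℕ), 1 ≤ X → 0 ≤ δ → δ ≤ Real.pi →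
    (((pball 0 1 X).filter (fun z => Bd n δ (ang z))).card : ℝ) ≤
      ((n : ℝ) + 1) * (C * (X * δ + 1)) := by
  obtain ⟨C, hC, h⟩ := Pool.Agent.W803.GA.sect hD01
  refine ⟨C, hC, ?_⟩
  intro X δ n hX hδ hδ'
  have hsub : ((pball 0 1 X).filter (fun z => Bd n δ (ang z))) ⊆
      (range (n + 1)).biUnion (fun j => (pball 0 1 X).filter (fun z => ∃ i : ℤ,
        |ang z - (-Real.pi + 2 * Real.pi * j / n) + 2 * Real.pi * i| ≤ δ)) := by
    intro z hz
    rw [mem_filter] at hz
    obtain ⟨hz1, j, hj, hz2⟩ := hz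
    rw [mem_biUnion]
    refine ⟨j, hj, ?_⟩
    rw [mem_filter]
    refine ⟨hz1, 0, ?_⟩
    rw [Int.cast_zero, mul_zero, add_zero]
    exact hz2
  have h1 := (Finset.card_le_card hsub).trans Finset.card_biUnion_le
  have h2 : (((pball 0 1 X).filter (fun z => Bd n δ (ang z))).card : ℝ) ≤
      ∑ j ∈ range (n + 1), (((pball 0 1 X).filter (fun z => ∃ i : ℤ,
        |ang z - (-Real.pi + 2 * Real.pi * j / n) + 2 * Real.pi * i| ≤ δ)).card : ℝ) := by
    exact_mod_cast h1
  have h3 : ∑ j ∈ range (n + 1), (((pball 0 1 X).filter (fun z => ∃ i : ℤ,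
        |ang z - (-Real.pi + 2 * Real.pi * j / n) + 2 * Real.pi * i| ≤ δ)).card : ℝ) ≤
      ∑ _j ∈ range (n + 1), C * (X * δ + 1) := by
    refine Finset.sum_le_sum fun j _ => ?_
    have h4 := h X δ (-Real.pi + 2 * Real.pi * j / n) hX hδ hδ'
    convert h4
  rw [Finset.sum_const, card_range, nsmul_eq_mul] at h3
  push_cast at h3
  exact h2.trans h3

/-- the pieces of a partition -/
lemma fiber_le {ι : Type*} (s : Finset ι) (ix : ι → ℤ) (c : ι → ℝ) (hc : ∀ z ∈ s, 0 ≤ c z)
    (n : ℕ) : ∑ j ∈ range (n + 1), ∑ z ∈ s.filter (fun z => ix z = (j : ℤ)), c z ≤ ∑ z ∈ s, c z := by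
  have h1 : ∀ j ∈ range (n + 1), ∑ z ∈ s.filter (fun z => ix z = (j : ℤ)), c z =
      ∑ z ∈ s, if ix z = (j : ℤ) then c z else 0 := fun j _ => Finset.sum_filter _ _
  rw [Finset.sum_congr rfl h1, Finset.sum_comm]
  refine Finset.sum_le_sum fun z hz => ?_
  by_cases h : ∃ j ∈ range (n + 1), ix z = (j : ℤ)
  · obtain ⟨j, hj, hjz⟩ := h
    rw [Finset.sum_eq_single_of_mem j hj, if_pos hjz]
    intro i _ hij
    rw [if_neg]
    rw [hjz]
    intro h
    exact hij (by exact_mod_cast h.symm)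
  · push Not at h
    rw [Finset.sum_eq_zero (fun j hj => if_neg (h j hj))]
    exact hc z hz


/-! ### the statement for one value of the parameters -/

open scoped Classical in
/-- the sum in `S_MRS` -/
noncomputable def TS (S : Gi → Prop) (σ X : ℝ) (n : ℕ) : ℝ :=
  ∑ j ∈ range (n + 1), |∑ z ∈ (pball 0 1 X).filter
      (fun z => σ * X < (nm z : ℝ) ∧ S z ∧ aix n z = (j : ℤ)), (gl z : ℝ)|

lemma abs_gl (z : Gi) : |(gl z : ℝ)| = 1 := by
  unfold gl lam
  push_cast
  rw [abs_pow, abs_neg, abs_one, one_pow]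

open scoped Classical in
/-- the smoothed coefficients -/
noncomputable def av' (S : Gi → Prop) (σ τ X : ℝ) (z : Gi) : ℝ :=
  if S z then (gl z : ℝ) * Ph σ τ ((nm z : ℝ) / X) else 0

lemma av'_le (S : Gi → Prop) (σ τ X : ℝ) (z : Gi) : |av' S σ τ X z| ≤ 1 := by
  unfold av'
  split_ifs
  · rw [abs_mul, abs_gl, one_mul, abs_of_nonneg (Ph_nonneg _ _ _)]
    exact Ph_le _ _ _
  · simp

/-- the Fourier coefficients of the smoothed sum -/
lemma GS_eq (S : Gi → Prop) {σ τ X : ℝ} (hτ : 0 < τ) (hX : 0 < X) (k : ℤ) :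
    ∑ z ∈ pball 0 1 X, (av' S σ τ X z : ℂ) * ex (k * ang z) = (X : ℂ) * GS (wq σ τ) S X k := by
  classical
  have he : (1 : ℝ) ≤ Real.exp 1 := Real.one_le_exp zero_le_one
  unfold GS DPG
  rw [Finset.mul_sum]
  have hsub : pball 0 1 X ⊆ pball 0 1 (Real.exp 1 * X) := by
    intro z hz
    rw [mem_pball hD01] at hz ⊢
    refine ⟨hz.1, hz.2.trans ?_⟩
    nlinarith
  rw [← Finset.sum_subset hsub]
  · refine Finset.sum_congr rfl fun z hz => ?_
    rw [mem_pball hD01] at hz
    have hz0 := prim_ne_zero hz.1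
    have hz1 : (0 : ℝ) < nm z := nm_posR hD01 hz0
    rw [ps_eq_exp hD01 hz0]
    unfold av' ex
    beta_reduce
    by_cases hS : S z
    · rw [if_pos hS, if_pos hS, ← wq_val (σ := σ) hτ hX hz1]
      push_cast
      ring
    · rw [if_neg hS, if_neg hS]
      simp
  · intro z hz hz'
    rw [mem_pball hD01] at hz hz'
    have hz0 := prim_ne_zero hz.1
    have hz1 : (0 : ℝ) < nm z := nm_posR hD01 hz0
    have h1 : X < nm z := by
      by_contra hcon
      exact hz' ⟨hz.1, not_lt.1 hcon⟩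
    beta_reduce
    by_cases hS : S z
    · rw [if_pos hS]
      have h2 := wq_val (σ := σ) hτ hX hz1
      rw [Ph_zero_right hτ ((one_le_div hX).2 h1.le)] at h2
      have h3 : wq σ τ (Real.log (nm z) - Real.log X) / (nm z : ℝ) = 0 := by
        rcases mul_eq_zero.1 h2 with h | h
        · exact absurd h hX.ne'
        · exact h
      rw [h3]
      simp
    · rw [if_neg hS]
      simp

/-- smoothing -/
lemma smooth (S : Gi → Prop) {σ τ X : ℝ} (hτ : 0 < τ) (hX : 0 < X) (n : ℕ) :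
    TS S σ X n ≤ ∑ j ∈ range (n + 1), |∑ z ∈ (pball 0 1 X).filter (fun z => aix n z = (j : ℤ)),
      av' S σ τ X z| +
      (((pball 0 1 ((σ + τ) * X)).filter (fun z => σ * X < (nm z : ℝ))).card +
      ((pball 0 1 X).filter (fun z => (1 - τ) * X < (nm z : ℝ))).card : ℝ) := by
  classical
  set c : Gi → ℝ := fun z => (if (σ * X < (nm z : ℝ) ∧ nm z ≤ (σ + τ) * X) then 1 else 0) +
    (if ((1 - τ) * X < (nm z : ℝ)) then 1 else 0) with hc
  have hc0 : ∀ z, 0 ≤ c z := by
    intro z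
    simp only [hc]
    split_ifs <;> norm_num
  have hpt : ∀ z ∈ pball 0 1 X,
      |(if (σ * X < (nm z : ℝ) ∧ S z) then (gl z : ℝ) else 0) - av' S σ τ X z| ≤ c z := by
    intro z hz
    rw [mem_pball hD01] at hz
    unfold av'
    by_cases hS : S z
    · rw [if_pos hS]
      by_cases h1 : σ * X < (nm z : ℝ)
      · rw [if_pos ⟨h1, hS⟩]
        have h2 : (gl z : ℝ) - (gl z : ℝ) * Ph σ τ ((nm z : ℝ) / X) =
            (gl z : ℝ) * (1 - Ph σ τ ((nm z : ℝ) / X)) := by ring
        rw [h2, abs_mul, abs_gl, one_mul]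
        have h3 := Ph_nonneg σ τ ((nm z : ℝ) / X)
        have h4 := Ph_le σ τ ((nm z : ℝ) / X)
        rw [abs_of_nonneg (by linarith)]
        by_cases h5 : nm z ≤ (σ + τ) * X
        · simp only [hc]
          rw [if_pos ⟨h1, h5⟩]
          split_ifs <;> linarith
        · by_cases h6 : (1 - τ) * X < (nm z : ℝ)
          · simp only [hc]
            rw [if_pos h6]
            split_ifs <;> linarith
          · push Not at h5 h6
            have h7 : Ph σ τ ((nm z : ℝ) / X) = 1 := by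
              apply Ph_one hτ
              · rw [le_div_iff₀ hX]
                exact h5.le
              · rw [div_le_iff₀ hX]
                exact h6
            rw [h7, sub_self]
            exact hc0 z
      · rw [if_neg (fun h => h1 h.1)]
        have h2 : Ph σ τ ((nm z : ℝ) / X) = 0 := by
          apply Ph_zero_left hτ
          rw [div_le_iff₀ hX]
          exact not_lt.1 h1
        rw [h2, mul_zero, sub_zero, abs_zero]
        exact hc0 z
    · rw [if_neg hS, if_neg (fun h => hS h.2), sub_zero, abs_zero]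
      exact hc0 z
  have hsum : ∑ z ∈ pball 0 1 X, c z ≤
      (((pball 0 1 ((σ + τ) * X)).filter (fun z => σ * X < (nm z : ℝ))).card +
      ((pball 0 1 X).filter (fun z => (1 - τ) * X < (nm z : ℝ))).card : ℝ) := by
    simp only [hc]
    rw [Finset.sum_add_distrib, ← Finset.sum_filter, ← Finset.sum_filter, Finset.sum_const,
      Finset.sum_const, nsmul_eq_mul, nsmul_eq_mul, mul_one, mul_one]
    refine add_le_add ?_ le_rfl
    have : ((pball 0 1 X).filter (fun z => σ * X < (nm z : ℝ) ∧ nm z ≤ (σ + τ) * X)).card ≤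
        ((pball 0 1 ((σ + τ) * X)).filter (fun z => σ * X < (nm z : ℝ))).card := by
      apply Finset.card_le_card
      intro z hz
      rw [mem_filter, mem_pball hD01] at hz ⊢
      exact ⟨⟨hz.1.1, hz.2.2⟩, hz.2.1⟩
    exact_mod_cast this
  have h1 : ∀ j ∈ range (n + 1), |∑ z ∈ (pball 0 1 X).filter
      (fun z => σ * X < (nm z : ℝ) ∧ S z ∧ aix n z = (j : ℤ)), (gl z : ℝ)| ≤
      |∑ z ∈ (pball 0 1 X).filter (fun z => aix n z = (j : ℤ)), av' S σ τ X z| +
      ∑ z ∈ (pball 0 1 X).filter (fun z => aix n z = (j : ℤ)), c z := by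
    intro j _
    have h2 : ∑ z ∈ (pball 0 1 X).filter
        (fun z => σ * X < (nm z : ℝ) ∧ S z ∧ aix n z = (j : ℤ)), (gl z : ℝ) =
        ∑ z ∈ (pball 0 1 X).filter (fun z => aix n z = (j : ℤ)), av' S σ τ X z +
        ∑ z ∈ (pball 0 1 X).filter (fun z => aix n z = (j : ℤ)),
          ((if (σ * X < (nm z : ℝ) ∧ S z) then (gl z : ℝ) else 0) - av' S σ τ X z) := by
      rw [← Finset.sum_add_distrib, Finset.sum_filter, Finset.sum_filter]
      refine Finset.sum_congr rfl fun z _ => ?_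
      by_cases ha : aix n z = (j : ℤ)
      · rw [if_pos ha]
        by_cases hb : σ * X < (nm z : ℝ) ∧ S z
        · rw [if_pos ⟨hb.1, hb.2, ha⟩, if_pos hb]
          ring
        · rw [if_neg (fun h => hb ⟨h.1, h.2.1⟩), if_neg hb]
          ring
      · rw [if_neg ha, if_neg (fun h => ha h.2.2)]
    rw [h2]
    refine (abs_add_le _ _).trans (add_le_add le_rfl ?_)
    refine (Finset.abs_sum_le_sum_abs _ _).trans (Finset.sum_le_sum fun z hz => ?_)
    exact hpt z (Finset.mem_filter.1 hz).1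
  unfold TS
  refine (Finset.sum_le_sum h1).trans ?_
  rw [Finset.sum_add_distrib]
  refine add_le_add le_rfl ?_
  exact (fiber_le (pball 0 1 X) (aix n) c (fun z _ => hc0 z) n).trans hsum

end Pool.Agent.W883.EC
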